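import Pool.Agent.TH711.ES.Cx4

/-!
# The exponential sums algebraic over `ℚ(t)`, for example over `ℚ(π)`

An exponential sum is a finite sum `∑ b e^α` with algebraic exponents and coefficients. For every
complex `t` the exponential sums which are algebraic over `ℚ(t)` form a ring of one of three
shapes: the algebraic numbers; the sums over the rational multiples of one exponent; the
polynomials in one transcendental exponential sum.
-/

open IntermediateField Polynomial Pool.Agent.TH711.ES

namespace Pool.Agent.Results.MP_363d4d_nt.ExponentialSumRings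

/-- `z` is a finite sum `∑ b e^α` with algebraic numbers `b` and (distinct) algebraic numbers `α`,
and `z` is algebraic over the field `ℚ(t)`. -/
def InA (t z : ℂ) : Prop := (∃ c : Qb →₀ Qb, expSum c = z) ∧ IsAlgebraic ℚ⟮t⟯ z

/-- `z` is a finite sum `∑ b e^(qα)` with rational `q` and algebraic `b`. -/
def OnLine (α z : ℂ) : Prop :=
  z ∈ Submodule.span Qb (Set.range fun q : ℚ => Complex.exp (q * α))

theorem result :
    -- the three shapes
    (∀ t : ℂ,
      (∀ z, InA t z ↔ IsAlgebraic ℚ z) ∨
      (∃ α : ℂ, IsAlgebraic ℚ α ∧ α ≠ 0 ∧ ∀ z, InA t z ↔ OnLine α z) ∨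
      ∃ g : Qb →₀ Qb, Transcendental ℚ (expSum g) ∧
        (∀ z, InA t z ↔ ∃ P : Qb[X], aeval (expSum g) P = z) ∧
        ∀ (c : Qb →₀ Qb) (P : Qb[X]), aeval (expSum g) P = expSum c → 0 < P.natDegree →
          P.natDegree < c.support.card) ∧
    -- the second shape occurs when some `e^α` is algebraic over `ℚ(t)`
    (∀ t α : ℂ, IsAlgebraic ℚ α → α ≠ 0 → IsAlgebraic ℚ⟮t⟯ (Complex.exp α) →
      ∀ z, InA t z ↔ OnLine α z) ∧
    -- in particular for `t = π` when `π + e` or `π - e` is algebraic
    ((IsAlgebraic ℚ ((Real.pi : ℂ) + Complex.exp 1) ∨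
        IsAlgebraic ℚ ((Real.pi : ℂ) - Complex.exp 1)) →
      ∀ z, InA Real.pi z ↔ OnLine 1 z) ∧
    -- the third shape for a sum of two terms with independent exponents
    (∀ (t : ℂ) (c : Qb →₀ Qb), c.support.card = 2 →
      (∃ α β : Qb, c α ≠ 0 ∧ c β ≠ 0 ∧ LinearIndependent ℚ ![α, β]) →
      IsAlgebraic ℚ⟮t⟯ (expSum c) → ∀ z, InA t z ↔ ∃ P : Qb[X], aeval (expSum c) P = z) := by
  refine ⟨fun t => trichotomy t, fun t α hα hα0 h z => line_of_exp hα hα0 h z,
    fun h z => line_of_exp isAlgebraic_one one_ne_zero (exp_one_algebraic h) z,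
    fun t c hc ⟨α, β, hα, hβ, hli⟩ h z => binomial hc hα hβ hli h z⟩

end Pool.Agent.Results.MP_363d4d_nt.ExponentialSumRings
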