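import Pool.Agent.TH358.PE.Main

/-!
# Exponentials of algebraic numbers over finitely generated fields

Let `F` be a subfield of `ℂ` generated by the algebraic numbers and a finite set `S`, for instance
`S = {π}`. There is a finitely generated group `Γ = ℤ γ_1 + ... + ℤ γ_r` of algebraic numbers, of
rank `r ≤ |S|`, such that every polynomial relation of degree `n` over `F` for a number `e ^ α`,
`α` algebraic, implies `d α ∈ Γ` for some `1 ≤ d ≤ n`.

For `n = 1`: if `x + c e ^ α` is algebraic for some `x ∈ F` and some algebraic `c ≠ 0`, then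
`α ∈ Γ`. For `π ± e` one has `S = {π}`, `x = π`, `c = ± 1`, `α = 1`.

Proof. By the theorem of Lindemann and Weierstrass the group `V` of all algebraic `α` with `e ^ α`
algebraic over `F` has a maximal independent subset `a_1, ..., a_r`, `r ≤ |S|`. Put
`F' = F (e ^ a_1, ..., e ^ a_r)` and let `E` be generated by a transcendence basis of `F'` that
contains the `e ^ a_i`. If `d` is the degree of `e ^ α` over `F'` and `D` that of `F'` over `E`, the
norm to the rational function field `E` of a relation `(e ^ α) ^ m = ∏ (e ^ a_i) ^ n_i` shows that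
`m` divides `D d n_i`, hence `D d α ∈ ℤ a_1 + ... + ℤ a_r`; one takes `γ_i = a_i / D`.
-/

set_option autoImplicit false

namespace Pool.Agent.Results.MP_363d4d_nt.FinitelyGeneratedFields

theorem result :
    ∀ S : Finset ℂ, ∀ F : Subfield ℂ,
      -- `F` is the field generated by all algebraic numbers and the finite set `S`
      F = Subfield.closure ({z : ℂ | IsAlgebraic ℚ z} ∪ S) →
      ∃ (r : ℕ) (γ : Fin r → ℂ), r ≤ S.card ∧ (∀ i, IsAlgebraic ℚ (γ i)) ∧
        -- the numbers `e ^ γ_i` are algebraic over `F` and algebraically independent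
        (∀ i, IsAlgebraic F (Complex.exp (γ i))) ∧
        AlgebraicIndependent (algebraicClosure ℚ ℂ) (fun i => Complex.exp (γ i)) ∧
        -- a polynomial relation over `F` for `e ^ α` puts a small multiple of `α` into the group
        ∀ α : ℂ, IsAlgebraic ℚ α → ∀ P : Polynomial F, P ≠ 0 →
          Polynomial.aeval (Complex.exp α) P = 0 →
          ∃ d : ℕ, 1 ≤ d ∧ d ≤ P.natDegree ∧
            ∃ n : Fin r → ℤ, (d : ℂ) * α = ∑ i, n i * γ i := by
  intro S F hF
  have h := Pool.Agent.TH358.PE.adjoin_toSubfield (S : Set ℂ)
  rw [← hF] at h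
  subst h
  exact Pool.Agent.TH358.PE.main2 S

end Pool.Agent.Results.MP_363d4d_nt.FinitelyGeneratedFields
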