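import Pool.Agent.TH507.PowB

/-!
# The numbers `π ^ k + c e ^ α`

Let `t` be a complex number, for instance `t = π`, and consider all the numbers `t ^ k + c e ^ α`,
with `k ≠ 0` an integer and `α`, `c` nonzero algebraic numbers. (For `π + e` and `π - e` one has
`t = π`, `k = 1`, `α = 1`, `c = ±1`.)

At most one triple `(k, α, c)` gives an algebraic number different from `0`; if there is such a
triple, no other triple gives an algebraic number, `0` included.

Proof. If two triples give algebraic numbers `a ≠ 0` and `b`, the theorem of Lindemann and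
Weierstrass shows that the two exponents are rational multiples of each other, so that for some
`z = e ^ (α / q)`, which is transcendental, `(a - c z ^ q) ^ l = (b - d z ^ p) ^ k`. This is an
identity between rational functions of `z`, and it forces `p = q` and `k = l`.
-/

set_option autoImplicit false

namespace Pool.Agent.Results.MP_363d4d_nt.PowersPlusExponentials

theorem result :
    ∀ t : ℂ, ∀ k l : ℤ, k ≠ 0 → l ≠ 0 → ∀ α β c d : ℂ,
      IsAlgebraic ℚ α → IsAlgebraic ℚ β → IsAlgebraic ℚ c → IsAlgebraic ℚ d →
      α ≠ 0 → β ≠ 0 → c ≠ 0 → d ≠ 0 →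
      -- one of the numbers is algebraic and not `0`
      IsAlgebraic ℚ (t ^ k + c * Complex.exp α) → t ^ k + c * Complex.exp α ≠ 0 →
      -- another one is algebraic
      IsAlgebraic ℚ (t ^ l + d * Complex.exp β) →
      -- then they come from the same triple
      k = l ∧ α = β ∧ c = d :=
  fun _ _ _ hk hl _ _ _ _ hα hβ hc hd hα0 hβ0 hc0 hd0 h1 h1' h2 =>
    Pool.Agent.TH507.ExpE.main hk hl hα hβ hc hd hα0 hβ0 hc0 hd0 h1 h1' h2

end Pool.Agent.Results.MP_363d4d_nt.PowersPlusExponentials
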