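import Pool.Agent.TH536.EP.Count

set_option autoImplicit false

/-! # Simultaneous rational approximation of the numbers `π + e^k`

For arbitrary real numbers `t_1, …, t_s` (for instance `s = 1`, `t_1 = π`), integers `l i j`, distinct nonzero
integers `k i` and nonzero rational numbers `r i` the numbers `x_i = ∑ j, l i j * t j + r i * e ^ (k i)`
satisfy `max_i ‖q x_i‖ ≥ c q ^ (-(s + 1)/(M - s) - η)` for every denominator `q ≥ 1`, and for all large `q` at
most `s + (s + 1)/ε` of them satisfy `‖q x_i‖ < q ^ (-ε)`. -/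

namespace Pool.Agent.Results.MP_363d4d_nt.SimultaneousSums

theorem result (s M : ℕ) (t : Fin s → ℝ) (l : Fin M → Fin s → ℤ)
    (k : Fin M → ℤ) (hk : Function.Injective k) (hk0 : ∀ i, k i ≠ 0)
    (r : Fin M → ℚ) (hr : ∀ i, r i ≠ 0) :
    (s < M → ∀ η : ℝ, 0 < η → ∃ c : ℝ, 0 < c ∧ ∀ q : ℕ, 1 ≤ q → ∀ p : Fin M → ℤ,
      ∃ i, c * (q : ℝ) ^ (-((s + 1) / ((M : ℝ) - s)) - η) ≤
        |q * (∑ j, l i j * t j + r i * Real.exp (k i)) - p i|) ∧
    (∀ ε : ℝ, 0 < ε → ∃ Q : ℕ, ∀ q : ℕ, Q ≤ q →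
      (({i | ∃ p : ℤ, |q * (∑ j, l i j * t j + r i * Real.exp (k i)) - p| < (q : ℝ) ^ (-ε)} :
        Set (Fin M)).ncard : ℝ) ≤ s + (s + 1) / ε) := by
  refine ⟨fun hsM η hη => Pool.Agent.TH536.EP.add_core s M hsM t l k hk hk0 r hr η hη,
    fun ε hε => ?_⟩
  exact Pool.Agent.TH536.EP.count_of_core
    (fun i => ∑ j, l i j * t j + r i * Real.exp (k i)) s (s + 1) (by positivity)
    (fun A hA η hη => Pool.Agent.TH536.EP.add_all s M t l k hk hk0 r hr A hA η hη) ε hε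

end Pool.Agent.Results.MP_363d4d_nt.SimultaneousSums
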